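import Pool.Agent.Q57.FH.Fg

/-!
The finite generation of the multigraded adjoint rings, for covers of products of projective spaces:
the main theorem.
-/

set_option autoImplicit false
set_option linter.overlappingInstances false
set_option linter.unusedSectionVars false
set_option maxHeartbeats 400000

open FF MvPolynomial Pool.Agent.W603.LV Pool.Agent.W602.GT Pool.Agent.W602.Cov
open Pool.Agent.TH756.PR Pool.Agent.TH122.AB Pool.Agent.TH756.PN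
open Pool.Agent.Y169.CH Pool.Agent.Q57.TP Pool.Agent.Q57.TQ Pool.Agent.Q57.GM
open Pool.Agent.Q57.GH Pool.Agent.Q57.FG

namespace Pool.Agent.Q57.FH

variable {r N R p : ℕ} {n : Fin r → ℕ} {K : Type} [Field K] [Algebra ℂ K]

/-- **The main theorem.** -/
theorem main_fgh (hr : 1 ≤ r) (hn : ∀ i, 1 ≤ n i) (hN : N = ∑ i, n i)
    {F : ∀ i, MvPolynomial (Fin (n i + 1)) ℂ} {d : Fin r → ℕ} (hd : ∀ i, 1 ≤ d i)
    (hh : ∀ i, (F i).IsHomogeneous (d i)) (hs : ∀ i, SmF (F i))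
    {x : ∀ i, Fin (n i + 1) → K} (hx0 : ∀ i, x i 0 ≠ 0)
    (hbas : IsTranscendenceBasis ℂ (aff x)) {m : Fin R → ℕ} (hm : ∀ j, 0 < m j)
    {a : Fin R → Fin r → ℕ} (hdiv : ∀ j i, m j ∣ a j i * d i) {z : Fin R → K}
    (hz : ∀ j, z j ^ m j = ∏ i, (aeval (x i) (F i) / x i 0 ^ d i) ^ a j i)
    (hgen : IntermediateField.adjoin ℂ (Set.range (aff x) ∪ Set.range z) = ⊤)
    {c : Fin p → (Fin r → ℕ) → ℚ} (hc0 : ∀ i, c i 0 = 0) (hc1 : ∀ i v, c i v ≤ 1)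
    (hmul : ∀ i v (k : ℕ), 1 ≤ k → Adm m a v → 1 - c i (k • v) ≤ k * (1 - c i v))
    (hfg : ∃ T : Finset (Fin r → ℕ), (∀ s ∈ T, Adm m a s) ∧ ∀ v, Adm m a v →
      ∃ w : (Fin r → ℕ) → ℚ, (∀ s, 0 ≤ w s) ∧ (∀ k, ∑ s ∈ T, w s * s k ≤ v k) ∧
        ∀ i, 1 - c i v ≤ ∑ s ∈ T, w s * (1 - c i s)) {δ : Fin p → Place ℂ K → ℚ}
    (hδ : ∀ i P, δ i P = c i (mulQ F d x P)) : (secRing N δ).FG := by
  classical
  obtain ⟨N', rfl⟩ : ∃ N', N = N' + 1 := by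
    have h1 : n ⟨0, hr⟩ ≤ ∑ i, n i :=
      Finset.single_le_sum (f := n) (fun _ _ => Nat.zero_le _) (Finset.mem_univ _)
    have h2 := hn ⟨0, hr⟩
    exact ⟨N - 1, by omega⟩
  let e : ((i : Fin r) × Fin (n i)) ≃ Fin (N' + 1) :=
    finSigmaFinEquiv.trans (finCongr hN.symm)
  have hbas' : IsTranscendenceBasis ℂ (uu e x) := basis_uu e hbas
  have hrange : Set.range (uu e x) = Set.range (aff x) := by
    ext z
    constructor
    · rintro ⟨b, rfl⟩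
      exact ⟨e.symm b, rfl⟩
    · rintro ⟨a, rfl⟩
      refine ⟨e a, ?_⟩
      change aff x (e.symm (e a)) = _
      rw [e.symm_apply_apply]
  obtain ⟨Φ, hΦ, hΦn, hΦD, C, rfl, rfl, hvv, x', F', hx', hs', hh', hFx', hZ, hFZ, hτ⟩ :=
    exists_cvr_e e hn hx0 hbas' hd hs hh hm hz hdiv (by rw [hrange]; exact hgen)
  have hcf : ∀ i, CoefH C (c i) (δ i) := fun i =>
    ⟨hc0 i, hc1 i, fun P v h => by rw [hδ, hvv P v h]⟩
  have H : Mon e C d x' F' := ⟨hn, hx', hs', hh', hFx', hZ, hFZ, hτ, hΦn, hΦD⟩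
  obtain ⟨T, hT1, hT2⟩ := hfg
  exact fgB H hΦ hcf hmul hT1 hT2

end Pool.Agent.Q57.FH
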