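import Pool.Agent.Q57.FH.Sec
import Pool.Agent.Q57.FG.FgA
import Pool.Agent.Q57.GH.Gmm

/-!
The finite generation of the multigraded adjoint rings, for covers of products of projective spaces.
-/

set_option autoImplicit false
set_option linter.overlappingInstances false
set_option linter.unusedSectionVars false
set_option maxHeartbeats 1000000

open FF MvPolynomial Pool.Agent.W603.LV Pool.Agent.W602.GT Pool.Agent.W602.Cov
open Pool.Agent.TH756.PR Pool.Agent.TH122.AB Pool.Agent.TH756.PN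
open Pool.Agent.Y169.CH Pool.Agent.Y169.CH.Cvr Pool.Agent.Q57.TP Pool.Agent.Q57.TQ
open Pool.Agent.Q57.GM Pool.Agent.Q57.GH Pool.Agent.Q57.FG

namespace Pool.Agent.Q57.FH

section lat

variable {N r p : ℕ}

/-- the constraints for the exponents -/
def consP (T : Finset (Fin r → ℕ)) (pv : Fin r → Fin N) (g : Fin r → Fin N → ℤ) (κ : Fin r → ℤ)
    (L : ℤ) (q : Fin p → T → ℤ) :
    ((Fin p → ℤ) × (Fin N → ℤ)) →+ ((T ⊕ (Fin N ⊕ (Fin p ⊕ Fin r))) → ℤ) :=
  AddMonoidHom.mk' (fun γ => Sum.elim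
    (fun s => L * ∑ k, (s.1 k : ℤ) * γ.2 (pv k) - ∑ i, q i s * γ.1 i)
    (Sum.elim (fun k => γ.2 k) (Sum.elim (fun i => γ.1 i)
      (fun t => κ t * ∑ i, γ.1 i - ∑ b, g t b * γ.2 b)))) (by
    intro x y
    funext s
    rcases s with s | k | i | t
    · simp only [Sum.elim_inl, Pi.add_apply, Prod.fst_add, Prod.snd_add, mul_add,
        Finset.sum_add_distrib]
      ring
    · simp only [Sum.elim_inl, Sum.elim_inr, Pi.add_apply, Prod.snd_add]
    · simp only [Sum.elim_inl, Sum.elim_inr, Pi.add_apply, Prod.fst_add]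
    · simp only [Sum.elim_inr, Pi.add_apply, Prod.fst_add, Prod.snd_add, mul_add,
        Finset.sum_add_distrib]
      ring)

variable {T : Finset (Fin r → ℕ)} {pv : Fin r → Fin N} {g : Fin r → Fin N → ℤ} {κ : Fin r → ℤ}
  {L : ℤ} {q : Fin p → T → ℤ}

theorem consP_vec (γ : (Fin p → ℤ) × (Fin N → ℤ)) (s : T) : consP T pv g κ L q γ (Sum.inl s) =
    L * ∑ k, (s.1 k : ℤ) * γ.2 (pv k) - ∑ i, q i s * γ.1 i := rfl

theorem consP_coord (γ : (Fin p → ℤ) × (Fin N → ℤ)) (k : Fin N) :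
    consP T pv g κ L q γ (Sum.inr (Sum.inl k)) = γ.2 k := rfl

theorem consP_m (γ : (Fin p → ℤ) × (Fin N → ℤ)) (i : Fin p) :
    consP T pv g κ L q γ (Sum.inr (Sum.inr (Sum.inl i))) = γ.1 i := rfl

theorem consP_deg (γ : (Fin p → ℤ) × (Fin N → ℤ)) (t : Fin r) :
    consP T pv g κ L q γ (Sum.inr (Sum.inr (Sum.inr t))) =
      κ t * ∑ i, γ.1 i - ∑ b, g t b * γ.2 b := rfl

theorem consP_inj : Function.Injective (consP T pv g κ L q) := by
  rw [injective_iff_map_eq_zero]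
  intro γ hγ
  refine Prod.ext ?_ ?_
  · funext i
    exact congrFun hγ (Sum.inr (Sum.inr (Sum.inl i)))
  · funext k
    exact congrFun hγ (Sum.inr (Sum.inl k))

/-- the lattice points with the exact constraints -/
def ExP (T : Finset (Fin r → ℕ)) (pv : Fin r → Fin N) (g : Fin r → Fin N → ℤ) (κ : Fin r → ℤ)
    (L : ℤ) (q : Fin p → T → ℤ) (γ : (Fin p → ℤ) × (Fin N → ℤ)) : Prop :=
  ∀ s, 0 ≤ consP T pv g κ L q γ s

theorem ExP.nn {γ : (Fin p → ℤ) × (Fin N → ℤ)} (h : ExP T pv g κ L q γ) (i : Fin p) :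
    0 ≤ γ.1 i := h (Sum.inr (Sum.inr (Sum.inl i)))

theorem ExP.nn2 {γ : (Fin p → ℤ) × (Fin N → ℤ)} (h : ExP T pv g κ L q γ) (b : Fin N) :
    0 ≤ γ.2 b := h (Sum.inr (Sum.inl b))

/-- the lattice points with exact constraints satisfy all the inequalities -/
theorem exP_adm {c : Fin p → (Fin r → ℕ) → ℚ} {L : ℕ} (hL : 0 < L) {q : Fin p → T → ℤ}
    (hq : ∀ i (s : T), (L : ℚ) * (1 - c i s.1) = q i s)
    {γ : (Fin p → ℤ) × (Fin N → ℤ)} (h : ExP T pv g κ L q γ) {v : Fin r → ℕ}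
    {w : (Fin r → ℕ) → ℚ} (hw : ∀ s, 0 ≤ w s) (hwv : ∀ k, ∑ s ∈ T, w s * s k ≤ v k)
    (hwc : ∀ i, 1 - c i v ≤ ∑ s ∈ T, w s * (1 - c i s)) :
    ∑ i, (γ.1 i : ℚ) * (1 - c i v) ≤ ((∑ k, (v k : ℤ) * γ.2 (pv k) : ℤ) : ℚ) := by
  classical
  have hLq : (0 : ℚ) < L := by exact_mod_cast hL
  have hm : ∀ i, (0 : ℚ) ≤ γ.1 i := fun i => by exact_mod_cast h.nn i
  have h1 : ∀ s : T, ∑ i, (γ.1 i : ℚ) * (1 - c i s.1) ≤ ∑ k, (s.1 k : ℚ) * γ.2 (pv k) := by
    intro s
    have h2 := h (Sum.inl s)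
    rw [consP_vec] at h2
    have h3 : ((∑ i, q i s * γ.1 i : ℤ) : ℚ) ≤
        ((L * ∑ k, (s.1 k : ℤ) * γ.2 (pv k) : ℤ) : ℚ) := by
      exact_mod_cast (by linarith : ∑ i, q i s * γ.1 i ≤ L * ∑ k, (s.1 k : ℤ) * γ.2 (pv k))
    push_cast at h3
    have h4 : (L : ℚ) * ∑ i, (γ.1 i : ℚ) * (1 - c i s.1) ≤
        L * ∑ k, (s.1 k : ℚ) * γ.2 (pv k) := by
      refine le_trans (le_of_eq ?_) h3
      rw [Finset.mul_sum]
      refine Finset.sum_congr rfl fun i _ => ?_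
      rw [← hq i s]
      ring
    exact le_of_mul_le_mul_left h4 hLq
  have h2 : ∀ k, (0 : ℚ) ≤ γ.2 (pv k) := fun k => by exact_mod_cast h.nn2 (pv k)
  calc ∑ i, (γ.1 i : ℚ) * (1 - c i v) ≤ ∑ i, (γ.1 i : ℚ) * ∑ s ∈ T, w s * (1 - c i s) :=
        Finset.sum_le_sum fun i _ => mul_le_mul_of_nonneg_left (hwc i) (hm i)
    _ = ∑ s ∈ T, w s * ∑ i, (γ.1 i : ℚ) * (1 - c i s) := by
        simp only [Finset.mul_sum]
        rw [Finset.sum_comm]
        exact Finset.sum_congr rfl fun s _ => Finset.sum_congr rfl fun i _ => by ring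
    _ ≤ ∑ s ∈ T, w s * ∑ k, (s k : ℚ) * γ.2 (pv k) :=
        Finset.sum_le_sum fun s hs => mul_le_mul_of_nonneg_left (h1 ⟨s, hs⟩) (hw s)
    _ = ∑ k, (∑ s ∈ T, w s * s k) * γ.2 (pv k) := by
        simp only [Finset.mul_sum, Finset.sum_mul]
        rw [Finset.sum_comm]
        exact Finset.sum_congr rfl fun k _ => Finset.sum_congr rfl fun s _ => by ring
    _ ≤ ∑ k, (v k : ℚ) * γ.2 (pv k) :=
        Finset.sum_le_sum fun k _ => mul_le_mul_of_nonneg_right (hwv k) (h2 k)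
    _ = _ := by
        push_cast
        rfl

end lat

variable {r R N' p : ℕ} {n : Fin r → ℕ} {K : Type} [Field K] [Algebra ℂ K]
  {e : ((i : Fin r) × Fin (n i)) ≃ Fin (N' + 1)} {Φ : Blk ℂ (N' + 1) r} {C : Cvr Φ K R}
  {dF : Fin r → ℕ} {x : ∀ i, Fin (n i + 1) → K} {F : ∀ i, MvPolynomial (Fin (n i + 1)) ℂ}
  {c : Fin p → (Fin r → ℕ) → ℚ} {δ : Fin p → Place ℂ K → ℚ}

theorem av_coefH (μ : Fin p →₀ ℕ) (h : ∀ i, CoefH C (c i) (δ i)) :
    CoefH C (av μ c) (av μ δ) := by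
  refine ⟨?_, fun v => av_le μ v fun i => (h i).le v, fun P v hd => ?_⟩
  · unfold av
    rw [Finset.sum_eq_zero fun i _ => by rw [(h i).h0, mul_zero], zero_div]
  · unfold av
    congr 1
    exact Finset.sum_congr rfl fun i _ => by rw [(h i).hδ P v hd]

/-- the factor -/
noncomputable def th (dF : Fin r → ℕ) (x : ∀ i, Fin (n i + 1) → K)
    (F : ∀ i, MvPolynomial (Fin (n i + 1)) ℂ) : K :=
  ∏ i, x i 0 ^ ((dF i : ℤ) - n i - 1) / aeval (x i) (F i)

theorem th_ne (H : Mon e C dF x F) : th dF x F ≠ 0 :=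
  Finset.prod_ne_zero_iff.2 fun i _ => div_ne_zero (zpow_ne_zero _ (H.hx i 0)) (H.hFx i)

/-- the section of a lattice point -/
noncomputable def sB (e : ((i : Fin r) × Fin (n i)) ≃ Fin (N' + 1)) (C : Cvr Φ K R)
    (dF : Fin r → ℕ) (x : ∀ i, Fin (n i + 1) → K) (F : ∀ i, MvPolynomial (Fin (n i + 1)) ℂ)
    (m : ℕ) (a : Fin (N' + 1) → ℤ) (D : Fin (N' + 1) → Derivation ℂ K K) : K :=
  om e D x ^ m * th dF x F ^ m * ∏ b, C.Y b ^ a b

theorem Y_ne' (b : Fin (N' + 1)) : C.Y b ≠ 0 := C.ae_ne (Blk.yp_ne0 Φ b)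

theorem sB_mul (m m' : ℕ) (a a' : Fin (N' + 1) → ℤ) (D : Fin (N' + 1) → Derivation ℂ K K) :
    sB e C dF x F (m + m') (a + a') D = sB e C dF x F m a D * sB e C dF x F m' a' D := by
  unfold sB
  rw [pow_add, pow_add]
  have h1 : ∏ b, C.Y b ^ (a + a') b = (∏ b, C.Y b ^ a b) * ∏ b, C.Y b ^ a' b := by
    rw [← Finset.prod_mul_distrib]
    refine Finset.prod_congr rfl fun b _ => ?_
    rw [Pi.add_apply, zpow_add₀ (Y_ne' b)]
  rw [h1]
  ring

theorem sB_sec (H : Mon e C dF x F) {c : (Fin r → ℕ) → ℚ} {δ : Place ℂ K → ℚ}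
    (hcf : CoefH C c δ) {m : ℕ} {a : Fin (N' + 1) →₀ ℕ}
    (hy : ∀ t, (Φ.wbd a t : ℤ) ≤ ((dF t : ℤ) - n t - 1) * m)
    (hadm : ∀ v, Adm C.M C.a v → (m : ℚ) * (1 - c v) ≤ ((∑ k, (v k : ℤ) * a (Φ.c k) : ℤ) : ℚ)) :
    BSec (N' + 1) δ {1} m 1 (sB e C dF x F m fun b => (a b : ℤ)) := by
  classical
  refine ⟨?_, ?_⟩
  · intro A D
    unfold sB
    rw [om_lin, mul_pow]
    ring
  · intro P _ D hD
    obtain ⟨α, l', v, h⟩ := H.exists_dat P
    have hom := om_ord e H.hn P D hD H.hx (by rw [← H.hZ]; exact C.hZ) H.hs H.hh H.hFx α h.h1 l'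
      h.h2 v h.hv
    have h2 := ((hom.pow m).mul (ge_ord P (th dF x F ^ m))).mul
      (ge_ord P (∏ b, C.Y b ^ (fun b => (a b : ℤ)) b))
    unfold sB
    rcases h2 with h2 | h2
    · exact Or.inl h2
    · right
      refine ⟨1, by simp, one_ne_zero, ?_⟩
      rw [P.ord_one, hcf.hδ P v (h.multH H)]
      have h3 : P.ord (th dF x F ^ m) = m * ∑ i, (((dF i : ℤ) - n i - 1) * P.ord (x i 0) -
          (dF i * α i + v i)) := by
        rw [P.ord_pow]
        unfold th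
        rw [ord_prod' P Finset.univ _ fun i _ => div_ne_zero (zpow_ne_zero _ (H.hx i 0)) (H.hFx i)]
        congr 1
        refine Finset.sum_congr rfl fun i _ => ?_
        rw [P.ord_div (zpow_ne_zero _ (H.hx i 0)) (H.hFx i), P.ord_zpow, h.hv]
      have h4 : P.ord (∏ b, C.Y b ^ (fun b => (a b : ℤ)) b) = ∑ b, (a b : ℤ) * P.ord (C.Y b) := by
        rw [ord_prod' P Finset.univ _ fun b _ => zpow_ne_zero _ (Y_ne' b)]
        exact Finset.sum_congr rfl fun b _ => P.ord_zpow _ _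
      have hmono := ord_mono_low H h a
      have hdeg : ∑ t, (α t - P.ord (x t 0)) * ((((dF t : ℤ) - n t - 1) * m)) ≤
          ∑ t, (α t - P.ord (x t 0)) * (Φ.wbd a t : ℤ) := by
        refine Finset.sum_le_sum fun t _ => ?_
        have h5 : α t - P.ord (x t 0) ≤ 0 := by linarith [h.h1 t 0]
        exact mul_le_mul_of_nonpos_left (hy t) h5
      rw [h3, h4] at h2
      have h5 : (m : ℤ) * (∑ i, ((n i : ℤ) + 1) * α i) + m * ∑ i, (((dF i : ℤ) - n i - 1) *
          P.ord (x i 0) - (dF i * α i + v i)) + ∑ t, (α t - P.ord (x t 0)) *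
          ((((dF t : ℤ) - n t - 1) * m)) = - (m * ∑ i, (v i : ℤ)) := by
        rw [Finset.mul_sum, Finset.mul_sum, Finset.mul_sum, ← Finset.sum_add_distrib,
          ← Finset.sum_add_distrib, ← Finset.sum_neg_distrib]
        exact Finset.sum_congr rfl fun i _ => by ring
      have h8 : (∑ i, (v i : ℤ) * a (Φ.c i)) - m * (if v = 0 then (0 : ℤ) else 1) ≤
          P.ord (om e D x ^ m * th dF x F ^ m * ∏ b, C.Y b ^ (fun b => (a b : ℤ)) b) := by
        refine le_trans ?_ h2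
        linarith
      have h4 : (m : ℚ) * ((if v = 0 then 0 else 1) - c v) ≤
          ((∑ k, (v k : ℤ) * a (Φ.c k) : ℤ) : ℚ) := by
        by_cases hv : v = 0
        · rw [if_pos hv, hv, hcf.h0]
          simp
        · rw [if_neg hv]
          exact hadm v (h.adm H hv)
      have h9 : (((if v = 0 then (0 : ℤ) else 1) : ℤ) : ℚ) = if v = 0 then 0 else 1 := by
        split_ifs <;> simp
      have h10 := (Int.cast_le (R := ℚ)).2 h8
      rw [Int.cast_sub, Int.cast_mul, h9] at h10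
      push_cast at h4 h10 ⊢
      linarith

/-- the element of a lattice point -/
noncomputable def gb (e : ((i : Fin r) × Fin (n i)) ≃ Fin (N' + 1)) (C : Cvr Φ K R)
    (dF : Fin r → ℕ) (x : ∀ i, Fin (n i + 1) → K) (F : ∀ i, MvPolynomial (Fin (n i + 1)) ℂ)
    (z : K) (γ : (Fin p → ℤ) × (Fin (N' + 1) → ℤ)) :
    (Fin (N' + 1) → Derivation ℂ K K) → MvPolynomial (Fin p) K :=
  hom (toN γ.1) fun D => sB e C dF x F (∑ i, toN γ.1 i) γ.2 D * z

theorem gb_mul {γ γ' : (Fin p → ℤ) × (Fin (N' + 1) → ℤ)} (h : ∀ i, 0 ≤ γ.1 i)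
    (h' : ∀ i, 0 ≤ γ'.1 i) (z z' : K) :
    gb e C dF x F (z * z') (γ + γ') = gb e C dF x F z γ * gb e C dF x F z' γ' := by
  funext D
  unfold gb hom
  rw [Pi.mul_apply, monomial_mul, Prod.fst_add, toN_add h h', Prod.snd_add]
  congr 1
  have h1 : ∑ i, (toN γ.1 + toN γ'.1) i = ∑ i, toN γ.1 i + ∑ i, toN γ'.1 i := by
    rw [← Finset.sum_add_distrib]
    rfl
  rw [h1]
  have h2 := sB_mul (e := e) (C := C) (dF := dF) (x := x) (F := F) (∑ i, toN γ.1 i)
    (∑ i, toN γ'.1 i) γ.2 γ'.2 D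
  dsimp only
  rw [h2]
  ring

theorem gb_zero : gb (p := p) e C dF x F 1 0 = 1 := by
  funext D
  unfold gb hom
  rw [Prod.fst_zero, toN_zero, Prod.snd_zero]
  have h1 : sB e C dF x F (∑ i : Fin p, (0 : Fin p →₀ ℕ) i) 0 D = 1 := by
    unfold sB
    simp
  dsimp only
  rw [h1, mul_one]
  rfl

/-- **Finite generation.** -/
theorem fgB (H : Mon e C dF x F) (hΦ : Smo Φ) (hcf : ∀ i, CoefH C (c i) (δ i))
    (hmul : ∀ i v (r : ℕ), 1 ≤ r → Adm C.M C.a v → 1 - c i (r • v) ≤ r * (1 - c i v))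
    {T : Finset (Fin r → ℕ)} (hTadm : ∀ s ∈ T, Adm C.M C.a s)
    (hTgen : ∀ v, Adm C.M C.a v → ∃ w : (Fin r → ℕ) → ℚ, (∀ s, 0 ≤ w s) ∧
      (∀ k, ∑ s ∈ T, w s * s k ≤ v k) ∧ ∀ i, 1 - c i v ≤ ∑ s ∈ T, w s * (1 - c i s)) :
    (secRing (N' + 1) δ).FG := by
  classical
  obtain ⟨L, hL, hden⟩ := Pool.Agent.Y169.TH.exists_den fun s : Fin p × T => 1 - c s.1 s.2.1
  choose q' hq' using hden
  obtain ⟨q, hq⟩ : ∃ q : Fin p → T → ℤ, q = fun i s => q' (i, s) := ⟨_, rfl⟩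
  have hqs : ∀ i (s : T), (L : ℚ) * (1 - c i s.1) = q i s := fun i s => by
    rw [hq]
    exact hq' (i, s)
  obtain ⟨g, hgd⟩ : ∃ g : Fin r → Fin (N' + 1) → ℤ,
    g = fun t b => if Φ.τ b = t then (Φ.wg b : ℤ) else 0 := ⟨_, rfl⟩
  have hwbd : ∀ (a : Fin (N' + 1) →₀ ℕ) t, (Φ.wbd a t : ℤ) = ∑ b, g t b * (a b : ℤ) := by
    intro a t
    unfold Blk.wbd
    rw [hgd]
    push_cast
    refine Finset.sum_congr rfl fun b _ => ?_
    split_ifs <;> simp
  obtain ⟨κ, hκd⟩ : ∃ κ : Fin r → ℤ, κ = fun t => (dF t : ℤ) - n t - 1 := ⟨_, rfl⟩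
  have hκt : ∀ t, κ t = (dF t : ℤ) - n t - 1 := fun t => by rw [hκd]
  obtain ⟨G, hG1, hG2⟩ := gordan (consP T Φ.c g κ L q) consP_inj
  -- the vector fields
  obtain ⟨D0, hD0'⟩ := exists_dual C.hZ
  have hD0 : ∀ i j, D0 i (C.Z j) = if i = j then 1 else 0 := by
    intro i j
    have h1 := congrFun (congrFun hD0' i) j
    rw [Matrix.of_apply, Matrix.one_apply] at h1
    exact h1
  -- the structure
  choose X hX using fun s : T => C.exists_dir (hTadm s.1 s.2).1 (hTadm s.1 s.2).2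
  obtain ⟨N0, β, Q, c1, hQ, hstr⟩ := sec_str_u C hΦ X hD0 {1}
  obtain ⟨cs, hcs⟩ : ∃ cs : T ⊕ (Fin (N' + 1) ⊕ (Fin p ⊕ Fin r)) → ℤ,
    cs = Sum.elim (fun _ => (L : ℤ) * c1) (Sum.elim (fun _ => 0) (Sum.elim (fun _ => 0)
      fun _ => (c1 : ℤ))) := ⟨_, rfl⟩
  obtain ⟨F0, hF1, hF2⟩ := dickson (consP T Φ.c g κ L q) cs
    {γ | ∀ s, - cs s ≤ consP T Φ.c g κ L q γ s} fun γ hγ => hγ
  have hFnn : ∀ f ∈ F0, ∀ i, 0 ≤ f.1 i := by
    intro f hf i
    have h1 := hF1 f hf (Sum.inr (Sum.inr (Sum.inl i)))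
    rw [consP_m, hcs] at h1
    simpa using h1
  -- the generators
  obtain ⟨GG, hGG⟩ : ∃ GG : Finset ((Fin (N' + 1) → Derivation ℂ K K) → MvPolynomial (Fin p) K),
    GG = G.image (gb e C dF x F 1) := ⟨_, rfl⟩
  obtain ⟨FF', hFF⟩ : ∃ FF' : Finset ((Fin (N' + 1) → Derivation ℂ K K) →
      MvPolynomial (Fin p) K),
    FF' = (F0 ×ˢ (Finset.univ : Finset (Fin N0))).image
      fun y => gb e C dF x F (β y.2 / Q) y.1 := ⟨_, rfl⟩
  have hSmem : ∀ γ, ExP T Φ.c g κ L q γ → gb e C dF x F 1 γ ∈ Algebra.adjoin ℂ (GG :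
      Set ((Fin (N' + 1) → Derivation ℂ K K) → MvPolynomial (Fin p) K)) := by
    have key : ∀ γ ∈ AddSubmonoid.closure (G : Set ((Fin p → ℤ) × (Fin (N' + 1) → ℤ))),
        (∀ i, 0 ≤ γ.1 i) ∧ gb e C dF x F 1 γ ∈ Algebra.adjoin ℂ (GG :
        Set ((Fin (N' + 1) → Derivation ℂ K K) → MvPolynomial (Fin p) K)) := by
      intro γ hγ
      induction hγ using AddSubmonoid.closure_induction with
      | mem g hg =>
        refine ⟨fun i => (hG1 g hg).2 (Sum.inr (Sum.inr (Sum.inl i))),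
          Algebra.subset_adjoin ?_⟩
        rw [hGG]
        exact Finset.mem_coe.2 (Finset.mem_image_of_mem _ hg)
      | zero =>
        refine ⟨fun i => le_rfl, ?_⟩
        rw [gb_zero]
        exact Subalgebra.one_mem _
      | add x' y _ _ hx hy =>
        refine ⟨fun i => add_nonneg (hx.1 i) (hy.1 i), ?_⟩
        have h1 := gb_mul (e := e) (C := C) (dF := dF) (x := x) (F := F) hx.1 hy.1 1 1
        rw [mul_one] at h1
        rw [h1]
        exact Subalgebra.mul_mem _ hx.2 hy.2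
    exact fun γ hγ => (key γ (hG2 γ hγ)).2
  have hspan : ∀ γ, (∀ s, - cs s ≤ consP T Φ.c g κ L q γ s) → ∀ i, gb e C dF x F (β i / Q) γ ∈
      Submodule.span (Algebra.adjoin ℂ (GG : Set ((Fin (N' + 1) → Derivation ℂ K K) →
        MvPolynomial (Fin p) K))) (FF' : Set ((Fin (N' + 1) → Derivation ℂ K K) →
        MvPolynomial (Fin p) K)) := by
    intro γ hγ i
    obtain ⟨f, hf, hfγ⟩ := hF2 γ hγ
    have h1 := gb_mul (e := e) (C := C) (dF := dF) (x := x) (F := F) (γ := γ - f) (γ' := f)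
      (fun i => hfγ (Sum.inr (Sum.inr (Sum.inl i)))) (hFnn f hf) 1 (β i / Q)
    rw [sub_add_cancel, one_mul] at h1
    rw [h1]
    have h2 : gb e C dF x F (β i / Q) f ∈ Submodule.span (Algebra.adjoin ℂ (GG :
        Set ((Fin (N' + 1) → Derivation ℂ K K) → MvPolynomial (Fin p) K)))
        (FF' : Set ((Fin (N' + 1) → Derivation ℂ K K) → MvPolynomial (Fin p) K)) := by
      refine Submodule.subset_span ?_
      rw [hFF]
      exact Finset.mem_coe.2 (Finset.mem_image.2 ⟨(f, i), Finset.mem_product.2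
        ⟨hf, Finset.mem_univ i⟩, rfl⟩)
    exact Submodule.smul_mem _ (⟨gb e C dF x F 1 (γ - f), hSmem _ hfγ⟩ :
      Algebra.adjoin ℂ (GG : Set ((Fin (N' + 1) → Derivation ℂ K K) → MvPolynomial (Fin p) K))) h2
  have hx0 : ∏ i, x i 0 ^ (n i + 1) ≠ 0 :=
    Finset.prod_ne_zero_iff.2 fun i _ => pow_ne_zero _ (H.hx i 0)
  refine secRing_fg (D0 := D0) (fun m ω hω h0 => ?_) GG FF' (fun f hf => ?_) fun μ ω hω => ?_
  · funext D
    have h1 := pluri_eqH H hD0 hω D
    rw [h0, mul_zero] at h1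
    exact (mul_eq_zero.1 h1).resolve_right (pow_ne_zero _ hx0)
  · -- the generators are sections
    rw [hGG] at hf
    obtain ⟨γ, hγ, rfl⟩ := Finset.mem_image.1 hf
    have hex : ExP T Φ.c g κ L q γ := (hG1 γ hγ).2
    refine hom_mem ?_
    refine bsec_msec ?_
    simp only [mul_one]
    obtain ⟨a, ha⟩ : ∃ a : Fin (N' + 1) →₀ ℕ, ∀ b, (a b : ℤ) = γ.2 b :=
      ⟨toN γ.2, fun b => toN_coe hex.nn2 b⟩
    have ha' : γ.2 = fun b => (a b : ℤ) := funext fun b => (ha b).symm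
    have hsm : ((∑ i, toN γ.1 i : ℕ) : ℤ) = ∑ i, γ.1 i := by
      push_cast
      exact Finset.sum_congr rfl fun i _ => toN_coe hex.nn i
    rw [ha']
    refine sB_sec H (av_coefH _ hcf) (fun t => ?_) fun v hv => ?_
    · have h1 := hex (Sum.inr (Sum.inr (Sum.inr t)))
      rw [consP_deg] at h1
      rw [hwbd, hsm, ← hκt]
      simp only [ha]
      linarith
    · obtain ⟨w, hw, hwv, hwc⟩ := hTgen v hv
      have h1 := exP_adm hL hqs hex hw hwv hwc
      simp only [ha]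
      refine le_trans (le_of_eq ?_) h1
      rw [mul_sub, av_mul]
      push_cast
      rw [mul_one, ← Finset.sum_sub_distrib]
      refine Finset.sum_congr rfl fun i _ => ?_
      have h2 : ((toN γ.1 i : ℕ) : ℚ) = γ.1 i := by exact_mod_cast toN_coe hex.nn i
      rw [h2]
      ring
  · -- the sections are in the module
    obtain ⟨m, hm⟩ : ∃ m : ℕ, m = ∑ i, μ i := ⟨_, rfl⟩
    have hb := msec_bsec hω
    rw [← hm] at hb
    obtain ⟨Rp, hR, hRs⟩ := hstr (av_coefH μ hcf) (fun v r hr hv => av_ray μ hr fun i =>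
      hmul i v r hr hv) m 0 ω (bsec_sec hb)
    obtain ⟨μ', hμ'⟩ : ∃ μ' : Fin p → ℤ, μ' = fun i => ((μ i : ℕ) : ℤ) := ⟨_, rfl⟩
    have hμN : toN μ' = μ := by
      rw [hμ']
      exact toN_cast μ
    -- the expansion
    have hθ : (∏ i, x i 0 ^ (n i + 1)) ^ m * C.Lam m * th dF x F ^ m = 1 := by
      have h1 : C.Lam m = (∏ t, aeval C.Z (Φ.F t)) ^ m := by
        unfold Cvr.Lam
        rw [Finset.prod_pow]
      rw [h1, ← mul_pow, ← mul_pow]
      have h2 : (∏ i, x i 0 ^ (n i + 1)) * (∏ t, aeval C.Z (Φ.F t)) * th dF x F = 1 := by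
        unfold th
        rw [← Finset.prod_mul_distrib, ← Finset.prod_mul_distrib]
        refine Finset.prod_eq_one fun i _ => ?_
        rw [H.hFZ]
        have h3 := H.hFx i
        have h4 := H.hx i 0
        have h5 : x i 0 ^ ((dF i : ℤ) - n i - 1) = x i 0 ^ dF i / x i 0 ^ (n i + 1) := by
          rw [show (dF i : ℤ) - n i - 1 = (dF i : ℤ) - ((n i + 1 : ℕ) : ℤ) by push_cast; ring,
            zpow_sub₀ h4, zpow_natCast, zpow_natCast]
        rw [h5]
        field_simp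
      rw [h2, one_pow]
    have hexp : hom μ ω = ∑ i, ∑ a ∈ (Rp i).support,
        coeff a (Rp i) • gb e C dF x F (β i / Q) (μ', fun b => (a b : ℤ)) := by
      funext D
      simp only [Finset.sum_apply, Pi.smul_apply]
      unfold gb hom
      simp only [hμN, ← hm]
      have h1 : ∀ (z : K) (r : ℂ), r • (monomial μ z : MvPolynomial (Fin p) K) =
          monomial μ (r • z) := fun z r => by rw [smul_monomial]
      simp only [h1]
      rw [Finset.sum_congr rfl fun i _ => (map_sum (monomial μ) _ _).symm, ← map_sum]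
      congr 1
      have hpl := pluri_eqH H hD0 hω.1 D
      rw [← hm] at hpl
      have hLam := C.Lam_ne m
      have h2 : ω D = om e D x ^ m * th dF x F ^ m *
          ((∑ i, aeval C.Y (Rp i) * β i) / Q) := by
        rw [← hR]
        have h3 : ω D = ω D * ((∏ i, x i 0 ^ (n i + 1)) ^ m * C.Lam m * th dF x F ^ m) := by
          rw [hθ, mul_one]
        rw [h3, zero_add, pow_one]
        have h4 : ω D * ((∏ i, x i 0 ^ (n i + 1)) ^ m * C.Lam m * th dF x F ^ m) =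
            (ω D * (∏ i, x i 0 ^ (n i + 1)) ^ m) * C.Lam m * th dF x F ^ m := by ring
        rw [h4, hpl]
        field_simp
      rw [h2, Finset.sum_div, Finset.mul_sum]
      refine Finset.sum_congr rfl fun i _ => ?_
      have h3 : aeval C.Y (Rp i) = ∑ a ∈ (Rp i).support, algebraMap ℂ K (coeff a (Rp i)) *
          ∏ b, C.Y b ^ a b := by
        conv_lhs => rw [(Rp i).as_sum, map_sum]
        refine Finset.sum_congr rfl fun a _ => ?_
        rw [aeval_monomial, Finsupp.prod_fintype _ _ fun i => pow_zero _]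
      rw [h3, Finset.sum_mul, Finset.sum_div, Finset.mul_sum]
      refine Finset.sum_congr rfl fun a _ => ?_
      unfold sB
      rw [Algebra.smul_def]
      simp only [zpow_natCast]
      ring
    rw [hexp]
    refine Submodule.sum_mem _ fun i _ => Submodule.sum_mem _ fun a ha => ?_
    have hmem := hspan (μ', fun b => (a b : ℤ)) ?_ i
    · have h1 : coeff a (Rp i) • gb e C dF x F (β i / Q) (μ', fun b => (a b : ℤ)) =
          (algebraMap ℂ (Algebra.adjoin ℂ (GG : Set ((Fin (N' + 1) → Derivation ℂ K K) →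
            MvPolynomial (Fin p) K))) (coeff a (Rp i))) •
            gb e C dF x F (β i / Q) (μ', fun b => (a b : ℤ)) :=
        (algebraMap_smul _ _ _).symm
      rw [h1]
      exact Submodule.smul_mem _ _ hmem
    -- the constraints
    obtain ⟨hw1, hT1⟩ := hRs i a ha
    have hsumμ : ∑ i, μ' i = m := by
      rw [hμ', hm]
      push_cast
      rfl
    have hav : ∀ v, (m : ℚ) * av μ c v = ∑ i, (μ i : ℚ) * c i v := by
      intro v
      rw [hm]
      exact av_mul μ c v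
    intro s
    rcases s with s | k | i' | t
    · rw [consP_vec, hcs, Sum.elim_inl]
      have h1 := hT1 s
      rw [hX] at h1
      have hLq : (0 : ℚ) < L := by exact_mod_cast hL
      have h2 := mul_le_mul_of_nonneg_left h1 hLq.le
      have h4 : ((∑ i, q i s * μ' i : ℤ) : ℚ) = L * ((1 - av μ c s.1) * m) := by
        push_cast
        have h5 : (L : ℚ) * ((1 - av μ c s.1) * m) = L * (m - m * av μ c s.1) := by ring
        rw [h5, hav, hm, hμ']
        push_cast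
        rw [← Finset.sum_sub_distrib, Finset.mul_sum]
        refine Finset.sum_congr rfl fun i _ => ?_
        rw [← hqs i s]
        ring
      have h3 : (((- ((L : ℤ) * c1) : ℤ)) : ℚ) ≤
          ((L * ∑ k, (s.1 k : ℤ) * (fun b => (a b : ℤ)) (Φ.c k) - ∑ i, q i s * μ' i : ℤ) : ℚ) := by
        rw [Int.cast_sub, h4]
        push_cast at h2 ⊢
        linarith
      exact_mod_cast h3
    · rw [consP_coord, hcs, Sum.elim_inr, Sum.elim_inl, neg_zero]
      positivity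
    · rw [consP_m, hcs, Sum.elim_inr, Sum.elim_inr, Sum.elim_inl, neg_zero, hμ']
      positivity
    · rw [consP_deg, hcs, Sum.elim_inr, Sum.elim_inr, Sum.elim_inr, hsumμ, hκt]
      have h1 := hw1 t
      rw [hwbd, H.hΦD, H.hΦn] at h1
      push_cast at h1
      linarith

end Pool.Agent.Q57.FH
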